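import Pool.Agent.Helper57_K9.Stmts3
import Pool.Agent.Helper75_PP.Fin0
import Pool.Agent.Helper50_PP.Bid
import Pool.Agent.Helper50_PP.Ldp
import Pool.Agent.Helper50_PP.Dic
import Pool.Agent.Helper50_PP.Ffa
import Pool.Agent.Helper20_PP.Nls
import Pool.Agent.Helper20_PP.Ibr
import Pool.Agent.Helper63_PP.Smt
import Pool.Agent.Helper94_PP.Nch

/-!
# Squad K9, part KL, row CTL: defect groups of order `ℓ ^ 2`, if `ℓ ^ 2` divides the alternating sum
-/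

open scoped BigOperators

noncomputable section

namespace Pool.Agent.PP.K9.H59

open Pool.Agent.Helper51_AWC Pool.Agent.Helper79_WRA Pool.Agent.PP Pool.Agent.PP.KF
open Pool.Agent.PP.K9

attribute [local instance] Ideal.Quotient.field

/-- CTL -/
theorem ctl (chv : ChvStmt) (kl : KlStmt) (lbd : LbdStmt) (fmg : FmgStmt) : CtlStmt := by
  intro ℓ hℓ M _ hM G _ _ hO e he hpos V hV hV2 hdvd
  obtain ⟨_, ⟨f2, f3⟩, _⟩ := fmg ℓ M hM G e he V hV
  obtain ⟨χ, hχ, h1, _, h3⟩ := H75.block_case H20.nls H20.brm H63.smt H94.nch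
    (H50.dic H20.ibn H20.nls H20.brm) H50.bid H50.chp H50.ldp H50.fld hℓ.out hM hO he hpos
  have h4 : ((ℓ ^ 2 : ℕ) : ℤ) ∣ altSum ℓ M χ := hdvd χ hχ h1
  have h5 := chv ℓ M hM G e he V hV hV2
  obtain ⟨a1, a2⟩ := lbd ℓ M hM G e he.1 he.2.1
  obtain ⟨b1, b2⟩ := lbd ℓ M hM (Subgroup.normalizer (V : Set G)) _ f2.1 f2.2.1
  have a3 := kl ℓ M hM G e he V hV hV2
  have b3 := kl ℓ M hM (Subgroup.normalizer (V : Set G)) _ f2 _ f3 (by
    rw [Nat.card_congr (Subgroup.subgroupOfEquivOfLe (Subgroup.le_normalizer)).toEquiv, hV2])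
  set A := {f : G → FF M | f ∈ IBr (FF M) G ∧ actF e f = f}.ncard with hA
  set B := {f : Subgroup.normalizer (V : Set G) → FF M |
      f ∈ IBr (FF M) (Subgroup.normalizer (V : Set G)) ∧
      actF (fun t : Subgroup.normalizer (V : Set G) => br V e t) f = f}.ncard with hB
  have h6 : (Nat.card G : ℤ) * altSum ℓ M χ = (Nat.card G : ℤ) * ((A : ℤ) - (B : ℤ)) := by
    rw [h3, h5]
    ring
  have h7 : (Nat.card G : ℤ) ≠ 0 := by exact_mod_cast Nat.card_pos.ne'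
  have h8 : altSum ℓ M χ = (A : ℤ) - (B : ℤ) := mul_left_cancel₀ h7 h6
  have hA1 : (1 : ℤ) ≤ A := by exact_mod_cast a1
  have hB1 : (1 : ℤ) ≤ B := by exact_mod_cast b1
  have hA2 : (A : ℤ) ≤ ((ℓ ^ 2 : ℕ) : ℤ) := by exact_mod_cast a2.trans a3
  have hB2 : (B : ℤ) ≤ ((ℓ ^ 2 : ℕ) : ℤ) := by exact_mod_cast b2.trans b3
  have h9 : altSum ℓ M χ = 0 := by
    refine Int.eq_zero_of_abs_lt_dvd h4 ?_
    rw [h8, abs_lt]
    constructor <;> linarith
  rw [← h3, h9, mul_zero]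

end Pool.Agent.PP.K9.H59
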